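import Pool.Graph.R_pool_sql_team_seeded_3997aac3.Q289.QW.Erg

set_option autoImplicit false

/-!
Bounded distortion of the Birkhoff sums of a function of bounded variation over a rotation.
-/

namespace Pool.Agent.KS6_11.QWalk

open MeasureTheory Set Filter Topology Metric Pool.Agent.Q289.QW
open scoped ENNReal NNReal

/-- the increments of `t ↦ f t` are controlled by a monotone function -/
def VB (f : UnitAddCircle → ℝ) : Prop :=
  ∃ v : ℝ → ℝ, Monotone v ∧ ∀ s t : ℝ, s ≤ t → |f t - f s| ≤ v t - v s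

lemma near_bound {f : UnitAddCircle → ℝ} {v : ℝ → ℝ} (hv : Monotone v)
    (h : ∀ s t : ℝ, s ≤ t → |f t - f s| ≤ v t - v s) {s t a b : ℝ}
    (has : a ≤ s) (hat : a ≤ t) (hsb : s ≤ b) (htb : t ≤ b) : |f t - f s| ≤ v b - v a := by
  rcases le_total s t with h1 | h1
  · have := h s t h1
    have := hv has
    have := hv htb
    linarith
  · have := h t s h1
    rw [abs_sub_comm] at this
    have := hv hat
    have := hv hsb
    linarith

variable {β : ℝ} {g : UnitAddCircle → ℝ}

lemma GG_sub_le (j : ℕ) (x y : UnitAddCircle) :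
    |GG β g j y - GG β g j x| ≤ ∑ i ∈ Finset.range j,
      |g (y - (((i : ℝ) * β : ℝ) : UnitAddCircle)) - g (x - (((i : ℝ) * β : ℝ) : UnitAddCircle))| := by
  induction j with
  | zero => simp [GG]
  | succ j ih =>
    rw [Finset.sum_range_succ]
    have h2 : GG β g (j + 1) y - GG β g (j + 1) x = (GG β g j y - GG β g j x)
      + (g (y - (((j : ℝ) * β : ℝ) : UnitAddCircle)) - g (x - (((j : ℝ) * β : ℝ) : UnitAddCircle))) := by
      simp only [GG]; ring
    rw [h2]
    refine (abs_add_le _ _).trans ?_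
    linarith

lemma norm_coe_le (z : ℝ) : ‖(z : UnitAddCircle)‖ ≤ |z| := by
  rw [UnitAddCircle.norm_eq]
  have := round_le z 0
  simpa using this

lemma coe_fract (t : ℝ) : ((Int.fract t : ℝ) : UnitAddCircle) = (t : UnitAddCircle) := by
  have h : Int.fract t = t - (⌊t⌋ : ℝ) := rfl
  rw [h, AddCircle.coe_sub]
  have : (((⌊t⌋ : ℤ) : ℝ) : UnitAddCircle) = 0 := by
    rw [AddCircle.coe_eq_zero_iff]
    exact ⟨⌊t⌋, by simp⟩
  rw [this, sub_zero]

lemma telescope {v : ℝ → ℝ} (hv : Monotone v) {q : ℕ} (hq : 0 < q) :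
    ∑ k ∈ Finset.range q, (v (((k : ℝ) + 5) / q) - v (((k : ℝ) - 4) / q)) ≤ 9 * (v 5 - v (-4)) := by
  have hq' : (0 : ℝ) < q := by exact_mod_cast hq
  have hq1 : (1 : ℝ) ≤ q := by exact_mod_cast hq
  have h1 : ∀ k : ℕ, v (((k : ℝ) + 5) / q) - v (((k : ℝ) - 4) / q)
      = ∑ m ∈ Finset.range 9, (v (((k : ℝ) + ((m + 1 : ℕ) : ℝ) - 4) / q)
        - v (((k : ℝ) + (m : ℝ) - 4) / q)) := by
    intro k
    rw [Finset.sum_range_sub (fun m : ℕ => v (((k : ℝ) + (m : ℝ) - 4) / q)) 9]
    congr 2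
    · push_cast; ring
    · push_cast; ring
  simp_rw [h1]
  rw [Finset.sum_comm]
  have h2 : ∀ m ∈ Finset.range 9, ∑ k ∈ Finset.range q, (v (((k : ℝ) + ((m + 1 : ℕ) : ℝ) - 4) / q)
        - v (((k : ℝ) + (m : ℝ) - 4) / q)) ≤ v 5 - v (-4) := by
    intro m hm
    have hm9 : (m : ℝ) ≤ 8 := by
      have := Finset.mem_range.1 hm
      exact_mod_cast (by omega : m ≤ 8)
    have e : ∀ k : ℕ, v (((k : ℝ) + ((m + 1 : ℕ) : ℝ) - 4) / q)
        = v ((((k + 1 : ℕ) : ℝ) + (m : ℝ) - 4) / q) := by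
      intro k; congr 2; push_cast; ring
    simp_rw [e]
    rw [Finset.sum_range_sub (fun k : ℕ => v (((k : ℝ) + (m : ℝ) - 4) / q)) q]
    have a1 : v (((q : ℝ) + (m : ℝ) - 4) / q) ≤ v 5 := by
      apply hv
      rw [div_le_iff₀ hq']
      linarith
    have a2 : v (-4) ≤ v ((((0 : ℕ) : ℝ) + (m : ℝ) - 4) / q) := by
      apply hv
      rw [le_div_iff₀ hq']
      have : (0 : ℝ) ≤ m := Nat.cast_nonneg m
      push_cast
      linarith
    linarith
  calc _ ≤ ∑ m ∈ Finset.range 9, (v 5 - v (-4)) := Finset.sum_le_sum h2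
    _ = _ := by rw [Finset.sum_const, Finset.card_range, nsmul_eq_mul]; norm_num

lemma distortion {v : ℝ → ℝ} (hv : Monotone v)
    (h : ∀ s t : ℝ, s ≤ t → |g t - g s| ≤ v t - v s) {r : ℚ}
    (hr : |β - r| ≤ 1 / (r.den : ℝ) ^ 2) {x y : UnitAddCircle} (hxy : dist y x ≤ 4 / r.den)
    {j : ℕ} (hj : j ≤ r.den) : |GG β g j y - GG β g j x| ≤ 99 * (v 5 - v (-4)) := by
  classical
  have hd : (0 : ℝ) < r.den := by exact_mod_cast r.den_pos
  obtain ⟨t, rfl⟩ := QuotientAddGroup.mk_surjective x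
  obtain ⟨z, hz⟩ := QuotientAddGroup.mk_surjective (y - ((t : ℝ) : UnitAddCircle))
  rw [dist_eq_norm] at hxy
  have hz' : ((z : ℝ) : UnitAddCircle) = y - ((t : ℝ) : UnitAddCircle) := hz
  obtain ⟨w, hw1, hw2⟩ : ∃ w : ℝ, ((w : ℝ) : UnitAddCircle) = y - ((t : ℝ) : UnitAddCircle) ∧
      |w| ≤ 4 / r.den := by
    refine ⟨z - round z, ?_, ?_⟩
    · rw [AddCircle.coe_sub, ← hz']
      have : (((round z : ℤ) : ℝ) : UnitAddCircle) = 0 := by
        rw [AddCircle.coe_eq_zero_iff]
        exact ⟨round z, by simp⟩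
      rw [this, sub_zero]
    · rw [← UnitAddCircle.norm_eq, hz']
      exact hxy
  have hy : y = ((w : ℝ) : UnitAddCircle) + ((t : ℝ) : UnitAddCircle) := by rw [hw1]; abel
  have hwa := abs_le.1 hw2
  let u : ℕ → ℝ := fun i => Int.fract (t - (i : ℝ) * β)
  let k : ℕ → ℕ := fun i => ⌊(r.den : ℝ) * u i⌋₊
  have hu0 : ∀ i, 0 ≤ u i := fun i => Int.fract_nonneg _
  have hu1 : ∀ i, u i < 1 := fun i => Int.fract_lt_one _
  have hk1 : ∀ i, (k i : ℝ) ≤ r.den * u i := fun i =>
    Nat.floor_le (mul_nonneg hd.le (hu0 i))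
  have hk2 : ∀ i, r.den * u i < k i + 1 := fun i => Nat.lt_floor_add_one _
  have hk3 : ∀ i, k i < r.den := by
    intro i
    have h1 := hk1 i
    have h2 : (r.den : ℝ) * u i < r.den := by
      have := mul_lt_mul_of_pos_left (hu1 i) hd
      linarith
    exact_mod_cast h1.trans_lt h2
  set W : ℕ → ℝ := fun n => v (((n : ℝ) + 5) / r.den) - v (((n : ℝ) - 4) / r.den) with hW
  have hW0 : ∀ n, 0 ≤ W n := by
    intro n
    have : v (((n : ℝ) - 4) / r.den) ≤ v (((n : ℝ) + 5) / r.den) := by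
      apply hv
      gcongr
      linarith
    simp only [hW]
    linarith
  have hterm : ∀ i : ℕ, |g (y - (((i : ℝ) * β : ℝ) : UnitAddCircle))
      - g (((t : ℝ) : UnitAddCircle) - (((i : ℝ) * β : ℝ) : UnitAddCircle))| ≤ W (k i) := by
    intro i
    have e1 : ((t : ℝ) : UnitAddCircle) - (((i : ℝ) * β : ℝ) : UnitAddCircle)
        = ((u i : ℝ) : UnitAddCircle) := by
      rw [← AddCircle.coe_sub]
      exact (coe_fract _).symm
    have e2 : y - (((i : ℝ) * β : ℝ) : UnitAddCircle) = ((u i + w : ℝ) : UnitAddCircle) := by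
      rw [hy, AddCircle.coe_add, ← e1]
      abel
    rw [e1, e2]
    have b1 : ((k i : ℝ) - 4) / r.den ≤ u i - 4 / r.den := by
      rw [sub_div]
      have : (k i : ℝ) / r.den ≤ u i := by
        rw [div_le_iff₀ hd]; linarith [hk1 i]
      linarith
    have b2 : u i + 4 / r.den ≤ ((k i : ℝ) + 5) / r.den := by
      have h1 : u i ≤ ((k i : ℝ) + 1) / r.den := by
        rw [le_div_iff₀ hd]; linarith [hk2 i]
      have h2 : ((k i : ℝ) + 5) / r.den = ((k i : ℝ) + 1) / r.den + 4 / r.den := by ring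
      linarith
    have h40 : 0 ≤ 4 / (r.den : ℝ) := by positivity
    apply near_bound hv h <;> linarith
  refine (GG_sub_le j _ y).trans ?_
  calc ∑ i ∈ Finset.range j, |g (y - (((i : ℝ) * β : ℝ) : UnitAddCircle))
      - g (((t : ℝ) : UnitAddCircle) - (((i : ℝ) * β : ℝ) : UnitAddCircle))|
      ≤ ∑ i ∈ Finset.range j, W (k i) := Finset.sum_le_sum fun i _ => hterm i
    _ ≤ ∑ i ∈ Finset.range r.den, W (k i) :=
        Finset.sum_le_sum_of_subset_of_nonneg (Finset.range_mono hj) fun i _ _ => hW0 _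
    _ = ∑ n ∈ Finset.range r.den, ∑ i ∈ (Finset.range r.den).filter (fun i => k i = n), W (k i) :=
        (Finset.sum_fiberwise_of_maps_to (fun i _ => Finset.mem_range.2 (hk3 i)) _).symm
    _ = ∑ n ∈ Finset.range r.den,
          (((Finset.range r.den).filter (fun i => k i = n)).card : ℝ) * W n := by
        refine Finset.sum_congr rfl fun n _ => ?_
        rw [Finset.sum_congr rfl (g := fun _ => W n) fun i hi => by
          rw [(Finset.mem_filter.1 hi).2], Finset.sum_const, nsmul_eq_mul]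
    _ ≤ ∑ n ∈ Finset.range r.den, 11 * W n := by
        refine Finset.sum_le_sum fun n _ => mul_le_mul_of_nonneg_right ?_ (hW0 n)
        have hsub : (Finset.range r.den).filter (fun i => k i = n) ⊆ (Finset.range r.den).filter
            fun j : ℕ => ‖(((n : ℝ) / r.den + (j : ℝ) * β - t : ℝ) : UnitAddCircle)‖ ≤ 4 / r.den := by
          intro i hi
          rw [Finset.mem_filter] at hi ⊢
          refine ⟨hi.1, ?_⟩
          have e : (((n : ℝ) / r.den + (i : ℝ) * β - t : ℝ) : UnitAddCircle)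
              = (((n : ℝ) / r.den - u i : ℝ) : UnitAddCircle) := by
            have e1 : ((u i : ℝ) : UnitAddCircle) = ((t - (i : ℝ) * β : ℝ) : UnitAddCircle) :=
              coe_fract _
            have e2 : (((n : ℝ) / r.den - u i : ℝ) : UnitAddCircle)
                = (((n : ℝ) / r.den : ℝ) : UnitAddCircle) - ((u i : ℝ) : UnitAddCircle) := rfl
            rw [e2, e1, ← AddCircle.coe_sub]
            congr 1
            ring
          rw [e]
          refine (norm_coe_le _).trans ?_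
          have h1 := hk1 i
          have h2 := hk2 i
          rw [hi.2] at h1 h2
          have h3 : (n : ℝ) / r.den ≤ u i := by
            rw [div_le_iff₀ hd]; linarith
          have h4 : u i ≤ (n : ℝ) / r.den + 4 / r.den := by
            rw [← add_div, le_div_iff₀ hd]; linarith
          rw [abs_le]
          constructor <;> linarith [show (0 : ℝ) ≤ 4 / r.den by positivity]
        exact_mod_cast (Finset.card_le_card hsub).trans (card_near hr _ t)
    _ = 11 * ∑ n ∈ Finset.range r.den, W n := by rw [Finset.mul_sum]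
    _ ≤ 11 * (9 * (v 5 - v (-4))) := by
        have := telescope hv r.den_pos
        linarith
    _ = _ := by ring

/-- conformal measures are ergodic -/
lemma ergodic {μ : Measure UnitAddCircle} [IsFiniteMeasure μ] (h : Conf β g μ)
    (hβ : Irrational β) (hg : VB g)
    (hgm : Measurable g) {A : Set UnitAddCircle} (hAm : MeasurableSet A)
    (hA : (fun y => y + (β : UnitAddCircle)) ⁻¹' A = A) : μ A = 0 ∨ μ Aᶜ = 0 := by
  by_contra hc
  push Not at hc
  obtain ⟨hA0, hAc⟩ := hc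
  obtain ⟨x, hx⟩ := density hAm hAc
  have hfin : μ A ≠ ∞ := measure_ne_top _ _
  obtain ⟨v, hv, hgv⟩ := hg
  set D : ℝ := 99 * (v 5 - v (-4)) with hD
  -- the constant
  set K : ℝ≥0∞ := ENNReal.ofReal (Real.exp (2 * D)) * (11 * μ univ) with hK
  have hKfin : K ≠ ∞ := by
    rw [hK]
    exact ENNReal.mul_ne_top ENNReal.ofReal_ne_top
      (ENNReal.mul_ne_top (by norm_num) (measure_ne_top _ _))
  -- it suffices to show `μ A ≤ ε * K` for all `ε > 0`
  suffices hs : ∀ ε : ℝ≥0∞, 0 < ε → μ A ≤ ε * K by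
    apply hA0
    have h1 : Tendsto (fun ε : ℝ≥0∞ => ε * K) (𝓝[>] 0) (𝓝 0) := by
      have := (ENNReal.Tendsto.mul_const (b := K) (tendsto_id (x := 𝓝 (0 : ℝ≥0∞)))
        (Or.inr hKfin))
      rw [zero_mul] at this
      exact this.mono_left nhdsWithin_le_nhds
    have h2 := ge_of_tendsto h1 (eventually_nhdsWithin_of_forall fun ε hε => hs ε hε)
    exact le_antisymm h2 (zero_le)
  intro ε hε
  have h1 := hx.eventually_lt_const hε
  rw [eventually_nhdsWithin_iff, Metric.eventually_nhds_iff] at h1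
  obtain ⟨δ, hδ, h2⟩ := h1
  obtain ⟨N, hN⟩ := exists_nat_gt (4 * Real.pi / δ)
  obtain ⟨r, hrN, hr⟩ := exists_approx hβ N
  have hpi := Real.pi_pos
  have hd : (0 : ℝ) < r.den := by exact_mod_cast r.den_pos
  set ρ : ℝ := 4 * Real.pi / r.den with hρ
  have hρ0 : 0 < ρ := by positivity
  have hρδ : ρ < δ := by
    rw [hρ, div_lt_iff₀ hd]
    rw [div_lt_iff₀ hδ] at hN
    have : (N : ℝ) ≤ r.den := by exact_mod_cast hrN.le
    nlinarith
  have h3 : μ (A ∩ arc x ρ) / μ (arc x ρ) < ε := by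
    apply h2 _ hρ0
    rw [Real.dist_eq, sub_zero, abs_of_pos hρ0]
    exact hρδ
  have hI : MeasurableSet (arc x ρ) := arc_measurable x ρ
  have h4 : μ (A ∩ arc x ρ) ≤ ε * μ (arc x ρ) := by
    by_cases h0 : μ (arc x ρ) = 0
    · rw [h0, mul_zero]
      exact (measure_mono inter_subset_right).trans h0.le
    · exact (ENNReal.div_le_iff_le_mul (Or.inl h0) (Or.inl (measure_ne_top _ _))).1 h3.le
  -- points of the arc
  have harc : ∀ y ∈ arc x ρ, dist y x ≤ Real.pi / r.den := by
    intro y hy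
    have := near_emb (x := y) (y := x) (ρ := ρ) hy
    rw [hρ] at this
    refine this.trans (le_of_eq ?_)
    field_simp
  have hpi4 : Real.pi ≤ 4 := Real.pi_le_four
  -- distortion
  have hdist : ∀ j < r.den, ∀ y ∈ arc x ρ, |GG β g j y - GG β g j x| ≤ D := by
    intro j hj y hy
    refine distortion hv hgv hr ((harc y hy).trans ?_) hj.le
    gcongr
  -- comparison for one `j`
  have hone : ∀ j < r.den, μ (A ∩ (fun y => y + (((j : ℝ) * β : ℝ) : UnitAddCircle)) ⁻¹' arc x ρ)
      ≤ ENNReal.ofReal (Real.exp (2 * D)) * ε *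
        μ ((fun y => y + (((j : ℝ) * β : ℝ) : UnitAddCircle)) ⁻¹' arc x ρ) := by
    intro j hj
    have h5 : A ∩ (fun y => y + (((j : ℝ) * β : ℝ) : UnitAddCircle)) ⁻¹' arc x ρ
        = (fun y => y + (((j : ℝ) * β : ℝ) : UnitAddCircle)) ⁻¹' (A ∩ arc x ρ) := by
      rw [preimage_inter, invariant_iter hA]
    rw [h5, h.measure_iter hgm j (hAm.inter hI), h.measure_iter hgm j hI]
    have h6 : ∫⁻ y in A ∩ arc x ρ, ENNReal.ofReal (Real.exp (GG β g j y)) ∂μ
        ≤ ENNReal.ofReal (Real.exp (GG β g j x + D)) * μ (A ∩ arc x ρ) := by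
      rw [← setLIntegral_const]
      refine setLIntegral_mono' (hAm.inter hI) fun y hy => ?_
      apply ENNReal.ofReal_le_ofReal
      apply Real.exp_le_exp.2
      have := abs_le.1 (hdist j hj y hy.2)
      linarith
    have h7 : ENNReal.ofReal (Real.exp (GG β g j x - D)) * μ (arc x ρ)
        ≤ ∫⁻ y in arc x ρ, ENNReal.ofReal (Real.exp (GG β g j y)) ∂μ := by
      rw [← setLIntegral_const]
      refine setLIntegral_mono' hI fun y hy => ?_
      apply ENNReal.ofReal_le_ofReal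
      apply Real.exp_le_exp.2
      have := abs_le.1 (hdist j hj y hy)
      linarith
    have h8 : ENNReal.ofReal (Real.exp (GG β g j x + D))
        = ENNReal.ofReal (Real.exp (2 * D)) * ENNReal.ofReal (Real.exp (GG β g j x - D)) := by
      rw [← ENNReal.ofReal_mul (Real.exp_pos _).le, ← Real.exp_add]
      congr 2
      ring
    calc ∫⁻ y in A ∩ arc x ρ, ENNReal.ofReal (Real.exp (GG β g j y)) ∂μ
        ≤ ENNReal.ofReal (Real.exp (GG β g j x + D)) * μ (A ∩ arc x ρ) := h6
      _ ≤ ENNReal.ofReal (Real.exp (GG β g j x + D)) * (ε * μ (arc x ρ)) := by gcongr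
      _ = ENNReal.ofReal (Real.exp (2 * D)) * ε *
          (ENNReal.ofReal (Real.exp (GG β g j x - D)) * μ (arc x ρ)) := by rw [h8]; ring
      _ ≤ _ := by gcongr
  -- covering
  have hcov : A ⊆ ⋃ j ∈ Finset.range r.den,
      (A ∩ (fun y => y + (((j : ℝ) * β : ℝ) : UnitAddCircle)) ⁻¹' arc x ρ) := by
    intro y hy
    obtain ⟨s, rfl⟩ := QuotientAddGroup.mk_surjective y
    obtain ⟨t, rfl⟩ := QuotientAddGroup.mk_surjective x
    obtain ⟨j, hj, hjn⟩ := exists_near hr s t
    simp only [mem_iUnion]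
    refine ⟨j, Finset.mem_range.2 hj, hy, ?_⟩
    rw [mem_preimage]
    unfold arc
    rw [mem_preimage, mem_closedBall]
    have h5 : dist ((s : UnitAddCircle) + (((j : ℝ) * β : ℝ) : UnitAddCircle)) (t : UnitAddCircle)
        ≤ 2 / r.den := by
      rw [dist_eq_norm, ← AddCircle.coe_add, ← AddCircle.coe_sub]
      exact hjn
    refine (emb_near h5).trans (le_of_eq ?_)
    rw [hρ]
    ring
  -- multiplicity
  have hmult : ∑ j ∈ Finset.range r.den,
      μ ((fun y => y + (((j : ℝ) * β : ℝ) : UnitAddCircle)) ⁻¹' arc x ρ) ≤ 11 * μ univ := by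
    have hmeas : ∀ j : ℕ, MeasurableSet
        ((fun y => y + (((j : ℝ) * β : ℝ) : UnitAddCircle)) ⁻¹' arc x ρ) := fun j =>
      (measurable_id.add_const _) hI
    have h5 : ∑ j ∈ Finset.range r.den,
        μ ((fun y => y + (((j : ℝ) * β : ℝ) : UnitAddCircle)) ⁻¹' arc x ρ)
        = ∫⁻ y, ∑ j ∈ Finset.range r.den,
          ((fun y => y + (((j : ℝ) * β : ℝ) : UnitAddCircle)) ⁻¹' arc x ρ).indicator 1 y ∂μ := by
      rw [lintegral_finsetSum' _ fun j _ => (measurable_one.indicator (hmeas j)).aemeasurable]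
      refine Finset.sum_congr rfl fun j _ => ?_
      rw [lintegral_indicator_one (hmeas j)]
    rw [h5, ← lintegral_const]
    refine lintegral_mono fun y => ?_
    obtain ⟨s, rfl⟩ := QuotientAddGroup.mk_surjective y
    obtain ⟨t, rfl⟩ := QuotientAddGroup.mk_surjective x
    classical
    have h6 : ∀ j ∈ Finset.range r.den,
        ((fun y => y + (((j : ℝ) * β : ℝ) : UnitAddCircle)) ⁻¹'
          arc (t : UnitAddCircle) ρ).indicator (1 : UnitAddCircle → ℝ≥0∞) (s : UnitAddCircle)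
        ≤ if ‖((s + (j : ℝ) * β - t : ℝ) : UnitAddCircle)‖ ≤ 4 / r.den then 1 else 0 := by
      intro j _
      by_cases hj : (s : UnitAddCircle) ∈ (fun y => y + (((j : ℝ) * β : ℝ) : UnitAddCircle)) ⁻¹'
          arc (t : UnitAddCircle) ρ
      · rw [indicator_of_mem hj, if_pos]
        · rfl
        · have h7 := harc _ hj
          simp only at h7
          rw [dist_eq_norm, ← AddCircle.coe_add, ← AddCircle.coe_sub] at h7
          refine h7.trans ?_
          gcongr
      · rw [indicator_of_notMem hj]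
        exact zero_le
    refine (Finset.sum_le_sum h6).trans ?_
    rw [Finset.sum_ite, Finset.sum_const_zero, add_zero, Finset.sum_const, nsmul_eq_mul, mul_one]
    exact_mod_cast card_near hr s t
  calc μ A ≤ μ (⋃ j ∈ Finset.range r.den,
      (A ∩ (fun y => y + (((j : ℝ) * β : ℝ) : UnitAddCircle)) ⁻¹' arc x ρ)) := measure_mono hcov
    _ ≤ ∑ j ∈ Finset.range r.den,
      μ (A ∩ (fun y => y + (((j : ℝ) * β : ℝ) : UnitAddCircle)) ⁻¹' arc x ρ) :=
        measure_biUnion_finset_le _ _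
    _ ≤ ∑ j ∈ Finset.range r.den, ENNReal.ofReal (Real.exp (2 * D)) * ε *
        μ ((fun y => y + (((j : ℝ) * β : ℝ) : UnitAddCircle)) ⁻¹' arc x ρ) :=
        Finset.sum_le_sum fun j hj => hone j (Finset.mem_range.1 hj)
    _ = ENNReal.ofReal (Real.exp (2 * D)) * ε * ∑ j ∈ Finset.range r.den,
        μ ((fun y => y + (((j : ℝ) * β : ℝ) : UnitAddCircle)) ⁻¹' arc x ρ) := by
        rw [Finset.mul_sum]
    _ ≤ ENNReal.ofReal (Real.exp (2 * D)) * ε * (11 * μ univ) := by gcongr
    _ = ε * K := by rw [hK]; ring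

end Pool.Agent.KS6_11.QWalk
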