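import Pool.Agent.KS6_11.QWalk.Dist
import Pool.Graph.R_pool_sql_team_seeded_3997aac3.Q289.QW.Conv

set_option autoImplicit false

/-!
Symmetric quasi-periodic walks with jump probabilities of bounded variation: uniqueness of the
stationary measure and uniform convergence.
-/

namespace Pool.Agent.KS6_11.QWalk

open MeasureTheory Set Filter Topology Metric Pool.Agent.Q289.QW
open scoped ENNReal NNReal

variable {β : ℝ} {g : UnitAddCircle → ℝ}

lemma quasiErgodic {μ : Measure UnitAddCircle} [IsFiniteMeasure μ] (h : Conf β g μ)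
    (hβ : Irrational β) (hg : VB g)
    (hgm : Measurable g) : QuasiErgodic (fun y => y + (β : UnitAddCircle)) μ where
  measurable := measurable_id.add_const _
  absolutelyContinuous := by
    refine Measure.AbsolutelyContinuous.mk fun s hs hs0 => ?_
    have hT : Measurable fun y : UnitAddCircle => y + (β : UnitAddCircle) :=
      measurable_id.add_const _
    rw [Measure.map_apply hT hs]
    have h1 := h.measure_iter hgm 1 hs
    simp only [Nat.cast_one, one_mul] at h1
    rw [h1]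
    exact setLIntegral_measure_zero _ _ hs0
  aeconst_set := by
    intro s hs hs'
    rcases ergodic h hβ hg hgm hs hs' with h1 | h1
    · exact eventuallyConst_set'.2 (Or.inl (ae_eq_empty.2 h1))
    · exact eventuallyConst_set'.2 (Or.inr (ae_eq_univ.2 h1))

/-- uniqueness of the conformal probability measure -/
lemma conf_unique {μ μ' : Measure UnitAddCircle} [IsProbabilityMeasure μ] [IsProbabilityMeasure μ']
    (h : Conf β g μ) (h' : Conf β g μ')
    (hβ : Irrational β) (hg : VB g)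
    (hgm : Measurable g) : μ = μ' := by
  have hT : Measurable fun y : UnitAddCircle => y + (β : UnitAddCircle) :=
    measurable_id.add_const _
  obtain ⟨m, hm⟩ : ∃ m, m = μ + μ' := ⟨_, rfl⟩
  have : IsFiniteMeasure m := by rw [hm]; infer_instance
  have : μ.HaveLebesgueDecomposition m := Measure.haveLebesgueDecomposition_of_finiteMeasure
  have hmc : Conf β g m := by rw [hm]; exact h.add h'
  have hq := quasiErgodic hmc hβ hg hgm
  have hac : μ ≪ m := by
    rw [hm]; exact Measure.absolutelyContinuous_of_le (Measure.le_add_right le_rfl)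
  set ρ := μ.rnDeriv m with hρ
  have hρm : Measurable ρ := Measure.measurable_rnDeriv _ _
  have hμ : m.withDensity ρ = μ := Measure.withDensity_rnDeriv_eq μ m hac
  have hint : ∀ φ : UnitAddCircle → ℝ≥0∞, Measurable φ → ∫⁻ y, φ y ∂μ = ∫⁻ y, ρ y * φ y ∂m := by
    intro φ hφ
    conv_lhs => rw [← hμ]
    rw [lintegral_withDensity_eq_lintegral_mul _ hρm hφ]
    rfl
  -- invariance of the density
  have hexp : Measurable fun y => ENNReal.ofReal (Real.exp (g y)) :=
    (Real.measurable_exp.comp hgm).ennreal_ofReal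
  have hρm' : Measurable fun y : UnitAddCircle => ρ (y - (β : UnitAddCircle)) :=
    hρm.comp (measurable_id.sub_const _)
  have key : ∀ φ : UnitAddCircle → ℝ≥0∞, Measurable φ →
      ∫⁻ y, φ y * (ρ (y - (β : UnitAddCircle)) * ENNReal.ofReal (Real.exp (g y))) ∂m
      = ∫⁻ y, φ y * (ρ y * ENNReal.ofReal (Real.exp (g y))) ∂m := by
    intro φ hφ
    have h1 := h φ hφ
    rw [hint (fun y => φ (y + (β : UnitAddCircle))) (hφ.comp hT),
      hint (fun y => φ y * ENNReal.ofReal (Real.exp (g y))) (hφ.mul hexp)] at h1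
    have h2 := hmc (fun y => φ y * ρ (y - (β : UnitAddCircle))) (hφ.mul hρm')
    simp only [add_sub_cancel_right] at h2
    calc ∫⁻ y, φ y * (ρ (y - (β : UnitAddCircle)) * ENNReal.ofReal (Real.exp (g y))) ∂m
        = ∫⁻ y, φ y * ρ (y - (β : UnitAddCircle)) * ENNReal.ofReal (Real.exp (g y)) ∂m := by
          simp_rw [mul_assoc]
      _ = ∫⁻ y, φ (y + (β : UnitAddCircle)) * ρ y ∂m := h2.symm
      _ = ∫⁻ y, ρ y * φ (y + (β : UnitAddCircle)) ∂m := by simp_rw [mul_comm]
      _ = ∫⁻ y, ρ y * (φ y * ENNReal.ofReal (Real.exp (g y))) ∂m := h1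
      _ = _ := lintegral_congr fun y => by ring
  have hae : (fun y : UnitAddCircle => ρ (y - (β : UnitAddCircle)) *
      ENNReal.ofReal (Real.exp (g y))) =ᵐ[m] fun y => ρ y * ENNReal.ofReal (Real.exp (g y)) := by
    refine ae_eq_of_forall_setLIntegral_eq_of_sigmaFinite (hρm'.mul hexp) (hρm.mul hexp) ?_
    intro s hs _
    have h1 := key (s.indicator 1) (measurable_one.indicator hs)
    have h2 : ∀ f : UnitAddCircle → ℝ≥0∞,
        ∫⁻ y, s.indicator 1 y * f y ∂m = ∫⁻ y in s, f y ∂m := by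
      intro f
      rw [← lintegral_indicator hs]
      refine lintegral_congr fun y => ?_
      by_cases hy : y ∈ s
      · rw [indicator_of_mem hy, indicator_of_mem hy]; simp
      · rw [indicator_of_notMem hy, indicator_of_notMem hy]; simp
    rwa [h2, h2] at h1
  have hae2 : ρ ∘ (fun y => y + (β : UnitAddCircle)) =ᵐ[m] ρ := by
    have h1 := hq.toQuasiMeasurePreserving.ae hae
    filter_upwards [h1] with y hy
    rw [add_sub_cancel_right] at hy
    have hpos : ENNReal.ofReal (Real.exp (g (y + (β : UnitAddCircle)))) ≠ 0 := by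
      rw [Ne, ENNReal.ofReal_eq_zero, not_le]; exact Real.exp_pos _
    have := (ENNReal.mul_left_inj hpos ENNReal.ofReal_ne_top).1 hy
    exact this.symm
  obtain ⟨c, hc⟩ := hq.ae_eq_const_of_ae_eq_comp_ae hρm.aestronglyMeasurable hae2
  have hμc : μ = c • m := by
    rw [← hμ, withDensity_congr_ae hc]
    exact withDensity_const c
  have h1 : c * 2 = 1 := by
    have := congrArg (fun ν : Measure UnitAddCircle => ν univ) hμc
    simp only [Measure.smul_apply, smul_eq_mul, measure_univ, hm, Measure.add_apply] at this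
    rw [this]
    norm_num
  have h2 : c = 2⁻¹ := by
    rw [ENNReal.eq_inv_of_mul_eq_one_left h1]
  have h3 : (2 : ℝ≥0∞) • μ = μ + μ' := by
    conv_lhs => rw [hμc, h2, smul_smul, ENNReal.mul_inv_cancel (by norm_num) (by norm_num), one_smul]
    exact hm
  have h4 : μ + μ = μ + μ' := by rw [← h3, two_smul]
  ext s _
  have h5 := congrArg (fun ν : Measure UnitAddCircle => ν s) h4
  simp only [Measure.add_apply] at h5
  exact (ENNReal.add_right_inj (measure_ne_top μ s)).1 h5


/-! ### Closure properties of `VB` -/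

lemma VB.shift {f : UnitAddCircle → ℝ} (h : VB f) (a : ℝ) : VB fun y => f (y + (a : UnitAddCircle)) := by
  obtain ⟨v, hv, h⟩ := h
  refine ⟨fun t => v (t + a), fun s t hst => hv (by linarith), fun s t hst => ?_⟩
  have := h (s + a) (t + a) (by linarith)
  rwa [AddCircle.coe_add, AddCircle.coe_add] at this

lemma VB.one_sub {f : UnitAddCircle → ℝ} (h : VB f) : VB fun y => 1 - f y := by
  obtain ⟨v, hv, h⟩ := h
  refine ⟨v, hv, fun s t hst => ?_⟩
  have := h s t hst
  rw [abs_sub_comm] at this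
  have e : 1 - f t - (1 - f s) = f s - f t := by ring
  rwa [e]

lemma VB.sub {f g : UnitAddCircle → ℝ} (h : VB f) (h' : VB g) : VB fun y => f y - g y := by
  obtain ⟨v, hv, h⟩ := h
  obtain ⟨w, hw, h'⟩ := h'
  refine ⟨fun t => v t + w t, fun s t hst => add_le_add (hv hst) (hw hst), fun s t hst => ?_⟩
  have e : f t - g t - (f s - g s) = (f t - f s) - (g t - g s) := by ring
  rw [e]
  refine (abs_sub _ _).trans ?_
  have := h s t hst
  have := h' s t hst
  linarith

lemma VB.mul {f g : UnitAddCircle → ℝ} (h : VB f) (h' : VB g) (hf : ∀ y, 0 ≤ f y ∧ f y ≤ 1)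
    (hg : ∀ y, 0 ≤ g y ∧ g y ≤ 1) : VB fun y => f y * g y := by
  obtain ⟨v, hv, h⟩ := h
  obtain ⟨w, hw, h'⟩ := h'
  refine ⟨fun t => v t + w t, fun s t hst => add_le_add (hv hst) (hw hst), fun s t hst => ?_⟩
  have e : f t * g t - f s * g s = f t * (g t - g s) + g s * (f t - f s) := by ring
  rw [e]
  refine (abs_add_le _ _).trans ?_
  rw [abs_mul, abs_mul, abs_of_nonneg (hf t).1, abs_of_nonneg (hg s).1]
  have e1 := mul_le_mul (hf t).2 (h' s t hst) (abs_nonneg _) zero_le_one
  have e2 := mul_le_mul (hg s).2 (h s t hst) (abs_nonneg _) zero_le_one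
  linarith

lemma VB.log {f : UnitAddCircle → ℝ} (h : VB f) {δ : ℝ} (hδ : 0 < δ) (hf : ∀ y, δ ≤ f y) :
    VB fun y => Real.log (f y) := by
  obtain ⟨v, hv, h⟩ := h
  have hi := inv_pos.2 hδ
  refine ⟨fun t => δ⁻¹ * v t, fun s t hst => mul_le_mul_of_nonneg_left (hv hst) hi.le,
    fun s t hst => ?_⟩
  have e1 := (log_lip hδ (hf t) (hf s)).trans (mul_le_mul_of_nonneg_left (h s t hst) hi.le)
  refine e1.trans (le_of_eq ?_)
  ring

variable {p q : UnitAddCircle → ℝ} {ν : Measure UnitAddCircle}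

/-- uniqueness of the stationary measure in the symmetric case -/
theorem stat_unique {ν' : Measure UnitAddCircle} [IsProbabilityMeasure ν] [IsProbabilityMeasure ν']
    (h : Stat β p q ν) (h' : Stat β p q ν') (hβ : Irrational β) {δ : ℝ}
    (hpc : Continuous p) (hqc : Continuous q)
    (hδ : 0 < δ) (hp : ∀ y, δ ≤ p y) (hp1 : ∀ y, p y ≤ 1) (hq : ∀ y, δ ≤ q y) (hq1 : ∀ y, q y ≤ 1)
    (hpL : VB p) (hqL : VB q)
    (hlog : ∫ y, Real.log (p y) = ∫ y, Real.log (q y)) : ν = ν' := by
  have hp0 : ∀ y, 0 < p y := fun y => hδ.trans_le (hp y)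
  have hq0 : ∀ y, 0 < q y := fun y => hδ.trans_le (hq y)
  have c1 := conf_of_reversible hpc hqc hp0 hq0
    (h.reversible hβ hpc hqc hp0 hp1 hq0 hq1 hlog)
  have c2 := conf_of_reversible hpc hqc hp0 hq0
    (h'.reversible hβ hpc hqc hp0 hp1 hq0 hq1 hlog)
  refine conf_unique c1 c2 hβ.neg ?_ ?_
  · exact (hpL.log hδ hp).sub ((hqL.shift β).log hδ fun y => hq _)
  · exact (Real.measurable_log.comp hpc.measurable).sub
      (Real.measurable_log.comp (hqc.measurable.comp (measurable_id.add_const _)))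

variable {α : ℝ} {p : C(UnitAddCircle, ℝ)}

/-- the standing assumptions -/
structure GoodV (α : ℝ) (p : C(UnitAddCircle, ℝ)) (δ : ℝ) : Prop where
  irr : Irrational α
  δ0 : 0 < δ
  lo : ∀ y, δ ≤ p y
  hi : ∀ y, p y ≤ 1 - δ
  var : VB p
  log : ∫ y, Real.log (p y) = ∫ y, Real.log (1 - p y)

variable {δ : ℝ}

lemma GoodV.stay (h : GoodV α p δ) (y : UnitAddCircle) : δ ≤ 1 - p2 α p y - q2 α p y := by
  unfold p2 q2
  have h1 := h.lo y
  have h2 := h.hi y
  have h3 := h.hi (y + (α : UnitAddCircle))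
  have h4 := h.lo (y - (α : UnitAddCircle))
  have h0 := h.δ0
  nlinarith [mul_nonneg (h0.le.trans h1) (sub_nonneg.2 (show δ ≤ 1 - p (y + (α : UnitAddCircle)) by
    linarith)), mul_nonneg (show (0:ℝ) ≤ 1 - p y by linarith) (sub_nonneg.2 h4)]

lemma GoodV.p0 (h : GoodV α p δ) (y : UnitAddCircle) : 0 < p y := h.δ0.trans_le (h.lo y)

lemma GoodV.p1 (h : GoodV α p δ) (y : UnitAddCircle) : p y < 1 := by
  have := h.hi y; have := h.δ0; linarith

lemma GoodV.δ1 (h : GoodV α p δ) : δ < 1 := by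
  have := h.hi 0; have := h.p0 0; linarith

/-- the decay -/
lemma GoodV.decay (h : GoodV α p δ) (φ : C(UnitAddCircle, ℝ)) :
    Tendsto (fun n : ℕ => ‖((op α p) ^ n) (φ - op α p (op α p φ))‖) atTop (𝓝 0) := by
  have hs : 0 < 1 - δ := by have := h.δ1; linarith
  set T : C(UnitAddCircle, ℝ) →ₗ[ℝ] C(UnitAddCircle, ℝ) := (op α p) ^ 2 with hT
  have hTa : ∀ φ, T φ = op α p (op α p φ) := fun φ => by
    rw [hT, pow_two]; rfl
  set Q : C(UnitAddCircle, ℝ) →ₗ[ℝ] C(UnitAddCircle, ℝ) :=
    (1 - δ)⁻¹ • (T - δ • (1 : Module.End ℝ C(UnitAddCircle, ℝ))) with hQ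
  have hQa : ∀ φ, Q φ = (1 - δ)⁻¹ • (T φ - δ • φ) := fun φ => rfl
  have hQn : ∀ φ, ‖Q φ‖ ≤ ‖φ‖ := by
    intro φ
    rw [hQa, norm_smul, Real.norm_of_nonneg (inv_nonneg.2 hs.le), inv_mul_le_iff₀ hs]
    rw [ContinuousMap.norm_le _ (by positivity)]
    intro y
    rw [ContinuousMap.sub_apply, ContinuousMap.smul_apply, hTa, op_op_apply, smul_eq_mul]
    have h1 := h.stay y
    have h2 : 0 ≤ p2 α p y := mul_nonneg (h.p0 _).le (h.p0 _).le
    have h3 : 0 ≤ q2 α p y := mul_nonneg (sub_nonneg.2 (h.p1 _).le) (sub_nonneg.2 (h.p1 _).le)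
    have e1 := abs_le.1 (Real.norm_eq_abs _ ▸ φ.norm_coe_le_norm y)
    have e2 := abs_le.1 (Real.norm_eq_abs _ ▸
      φ.norm_coe_le_norm (y + ((2 * α : ℝ) : UnitAddCircle)))
    have e3 := abs_le.1 (Real.norm_eq_abs _ ▸
      φ.norm_coe_le_norm (y - ((2 * α : ℝ) : UnitAddCircle)))
    rw [Real.norm_eq_abs, abs_le]
    have h4 : 0 ≤ 1 - p2 α p y - q2 α p y - δ := by linarith
    constructor
    · nlinarith [mul_nonneg h2 (by linarith [e2.1] :
        0 ≤ φ (y + ((2 * α : ℝ) : UnitAddCircle)) + ‖φ‖), mul_nonneg h3 (by linarith [e3.1] :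
        0 ≤ φ (y - ((2 * α : ℝ) : UnitAddCircle)) + ‖φ‖), mul_nonneg h4 (by linarith [e1.1] :
        0 ≤ φ y + ‖φ‖)]
    · nlinarith [mul_nonneg h2 (by linarith [e2.2] :
        0 ≤ ‖φ‖ - φ (y + ((2 * α : ℝ) : UnitAddCircle))), mul_nonneg h3 (by linarith [e3.2] :
        0 ≤ ‖φ‖ - φ (y - ((2 * α : ℝ) : UnitAddCircle))), mul_nonneg h4 (by linarith [e1.2] :
        0 ≤ ‖φ‖ - φ y)]
  have hTQ : ∀ φ, T φ = δ • φ + (1 - δ) • Q φ := by
    intro φ
    rw [hQa, smul_smul, mul_inv_cancel₀ hs.ne', one_smul]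
    abel
  have hd := fun n => Pool.Agent.Q289.QW.decay hQn hs h.δ0 (by ring : δ + (1 - δ) = 1) hTQ n φ
  have hbound : ∀ n : ℕ, ‖((op α p) ^ n) (φ - op α p (op α p φ))‖
      ≤ (1 - δ) * ‖φ‖ / √(((n / 2 + 1 : ℕ) : ℝ) * (1 - δ) * δ) := by
    intro n
    refine le_trans ?_ (hd (n / 2))
    rw [hTa, hT, ← pow_mul]
    conv_lhs => rw [← Nat.mod_add_div n 2, pow_add, Module.End.mul_apply]
    exact contraction_pow (op_norm_le (fun y => (h.p0 y).le) fun y => (h.p1 y).le) _ _
  refine squeeze_zero (fun n => norm_nonneg _) hbound ?_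
  have h1 : Tendsto (fun n : ℕ => ((n / 2 + 1 : ℕ) : ℝ) * (1 - δ) * δ) atTop atTop := by
    have : Tendsto (fun n : ℕ => ((n / 2 + 1 : ℕ) : ℝ)) atTop atTop := by
      refine tendsto_natCast_atTop_atTop.comp ?_
      refine tendsto_atTop_mono (fun n => Nat.le_succ _) ?_
      exact Nat.tendsto_div_const_atTop (by norm_num)
    exact (this.atTop_mul_const hs).atTop_mul_const h.δ0
  exact (tendsto_const_nhds).div_atTop (Real.tendsto_sqrt_atTop.comp h1)

/-- uniqueness of the stationary measure of the walk observed at even times -/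
lemma GoodV.unique2 (h : GoodV α p δ) {ν ν' : Measure UnitAddCircle} [IsProbabilityMeasure ν]
    [IsProbabilityMeasure ν'] (hν : ∀ φ, ∫ y, op α p (op α p φ) y ∂ν = ∫ y, φ y ∂ν)
    (hν' : ∀ φ, ∫ y, op α p (op α p φ) y ∂ν' = ∫ y, φ y ∂ν') : ν = ν' := by
  have hst : ∀ {ν : Measure UnitAddCircle} [IsProbabilityMeasure ν]
      (_ : ∀ φ, ∫ y, op α p (op α p φ) y ∂ν = ∫ y, φ y ∂ν), Stat (2 * α) (p2 α p) (q2 α p) ν := by
    intro ν _ hν φ
    have h1 := hν φ
    have h2 : ∀ y, (p2 α p y * (φ (y + ((2 * α : ℝ) : UnitAddCircle)) - φ y)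
      + q2 α p y * (φ (y - ((2 * α : ℝ) : UnitAddCircle)) - φ y))
        = op α p (op α p φ) y - φ y := by
      intro y; rw [op_op_apply]; ring
    simp_rw [h2]
    rw [integral_sub (intg ν (ContinuousMap.continuous _)) (intg ν φ.continuous), h1, sub_self]
  have hα : Irrational (2 * α) := by
    have := h.irr.natCast_mul (m := 2) (by norm_num)
    exact_mod_cast this
  have hle1 : ∀ y, p y ≤ 1 := fun y => (h.p1 y).le
  have hq : ∀ y, 0 ≤ 1 - p y ∧ 1 - p y ≤ 1 := fun y =>
    ⟨by have := h.p1 y; linarith, by have := h.p0 y; linarith⟩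
  have hlog : ∀ {f : UnitAddCircle → ℝ} (_ : Continuous f) (_ : ∀ y, 0 < f y) (a : UnitAddCircle),
      ∫ y, Real.log (f y * f (y + a)) = 2 * ∫ y, Real.log (f y) := by
    intro f hf hf0 a
    have e1 : ∀ y, Real.log (f y * f (y + a)) = Real.log (f y) + Real.log (f (y + a)) := fun y =>
      Real.log_mul (hf0 _).ne' (hf0 _).ne'
    simp_rw [e1]
    have e3 : Integrable (fun y => Real.log (f (y + a))) (volume : Measure UnitAddCircle) :=
      intg _ ((hf.comp (by fun_prop : Continuous fun y : UnitAddCircle => y + a)).log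
        fun y => (hf0 _).ne')
    rw [integral_add (intg _ (hf.log fun y => (hf0 y).ne')) e3]
    have e2 := integral_add_right_eq_self (μ := (volume : Measure UnitAddCircle))
      (fun y => Real.log (f y)) a
    rw [e2]
    ring
  have hpc2 : Continuous (p2 α p) := by unfold p2; fun_prop
  have hqc2 : Continuous (q2 α p) := by unfold q2; fun_prop
  refine stat_unique (hst hν) (hst hν') hα (δ := δ ^ 2) hpc2 hqc2
    (by have := h.δ0; positivity) ?_ ?_ ?_ ?_ ?_ ?_ ?_
  · intro y
    unfold p2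
    rw [sq]
    exact mul_le_mul (h.lo _) (h.lo _) h.δ0.le (h.p0 _).le
  · intro y
    unfold p2
    exact mul_le_one₀ (h.p1 _).le (h.p0 _).le (h.p1 _).le
  · intro y
    unfold q2
    rw [sq]
    have h1 := h.hi y
    have h2 := h.hi (y - (α : UnitAddCircle))
    exact mul_le_mul (by linarith) (by linarith) h.δ0.le (by have := h.δ0; linarith)
  · intro y
    unfold q2
    exact mul_le_one₀ (hq _).2 (hq _).1 (hq _).2
  · exact h.var.mul (h.var.shift α) (fun y => ⟨(h.p0 y).le, (h.p1 y).le⟩)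
      (fun y => ⟨(h.p0 _).le, (h.p1 _).le⟩)
  · have e1 := (h.var.shift (-α)).one_sub
    simp only [AddCircle.coe_neg, ← sub_eq_add_neg] at e1
    exact h.var.one_sub.mul e1 hq (fun y => hq _)
  · have e1 := hlog p.continuous h.p0 (α : UnitAddCircle)
    have e2 := hlog (f := fun y => 1 - p y) (by fun_prop) (fun y => by have := h.p1 y; linarith)
      (-(α : UnitAddCircle))
    simp only [← sub_eq_add_neg] at e2
    unfold p2 q2
    rw [e1, e2, h.log]

lemma GoodV.mm_prob (h : GoodV α p δ) (n : ℕ) (x : UnitAddCircle) :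
    IsProbabilityMeasure (mm α p n x) := by
  induction n generalizing x with
  | zero => unfold mm; infer_instance
  | succ n ih =>
    constructor
    unfold mm
    have := ih (x + (α : UnitAddCircle))
    have := ih (x - (α : UnitAddCircle))
    rw [Measure.add_apply, Measure.smul_apply, Measure.smul_apply, measure_univ, measure_univ,
      smul_eq_mul, smul_eq_mul, mul_one, mul_one, ← ENNReal.ofReal_add (h.p0 x).le
      (by have := h.p1 x; linarith)]
    simp

lemma GoodV.mm_integral (h : GoodV α p δ) (n : ℕ) (x : UnitAddCircle) (φ : C(UnitAddCircle, ℝ)) :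
    ∫ y, φ y ∂(mm α p n x) = ((op α p) ^ n) φ x := by
  induction n generalizing x with
  | zero => simp [mm, integral_dirac]
  | succ n ih =>
    have := h.mm_prob n (x + (α : UnitAddCircle))
    have := h.mm_prob n (x - (α : UnitAddCircle))
    unfold mm
    rw [integral_add_measure ((intg _ φ.continuous).smul_measure ENNReal.ofReal_ne_top)
      ((intg _ φ.continuous).smul_measure ENNReal.ofReal_ne_top), integral_smul_measure,
      integral_smul_measure, ih, ih, pow_succ', Module.End.mul_apply, op_apply,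
      ENNReal.toReal_ofReal (h.p0 x).le, ENNReal.toReal_ofReal (by have := h.p1 x; linarith)]
    rfl

lemma GoodV.limit (h : GoodV α p δ) {n : ℕ → ℕ} (hn : Tendsto n atTop atTop)
    (x : ℕ → UnitAddCircle) : ∃ μ : Measure UnitAddCircle, IsProbabilityMeasure μ ∧
      (∀ φ, ∫ y, op α p (op α p φ) y ∂μ = ∫ y, φ y ∂μ) ∧
      ∀ φ : C(UnitAddCircle, ℝ), Tendsto (fun k => ((op α p) ^ (n k)) φ (x k))
        (hyperfilter ℕ : Filter ℕ) (𝓝 (∫ y, φ y ∂μ)) := by
  let F : ℕ → ProbabilityMeasure UnitAddCircle := fun k => ⟨mm α p (n k) (x k), h.mm_prob _ _⟩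
  obtain ⟨μ, -, hμ⟩ := (isCompact_univ (X := ProbabilityMeasure UnitAddCircle)).ultrafilter_le_nhds
    ((hyperfilter ℕ).map F) (by simp)
  have hF : Tendsto F (hyperfilter ℕ : Filter ℕ) (𝓝 μ) := hμ
  have hlim : ∀ φ : C(UnitAddCircle, ℝ), Tendsto (fun k => ((op α p) ^ (n k)) φ (x k))
        (hyperfilter ℕ : Filter ℕ) (𝓝 (∫ y, φ y ∂(μ : Measure UnitAddCircle))) := by
    intro φ
    have h1 := (ProbabilityMeasure.tendsto_iff_forall_integral_tendsto.1 hF)
      (BoundedContinuousFunction.mkOfCompact φ)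
    refine h1.congr fun k => ?_
    exact h.mm_integral (n k) (x k) φ
  refine ⟨μ, inferInstance, fun φ => ?_, hlim⟩
  have h1 := (hlim φ).sub (hlim (op α p (op α p φ)))
  have h2 : Tendsto (fun k => ((op α p) ^ (n k)) φ (x k)
      - ((op α p) ^ (n k)) (op α p (op α p φ)) (x k)) (hyperfilter ℕ : Filter ℕ) (𝓝 0) := by
    have h3 := (h.decay φ).comp hn
    have h4 : Tendsto (fun k => ((op α p) ^ (n k)) φ (x k)
      - ((op α p) ^ (n k)) (op α p (op α p φ)) (x k)) atTop (𝓝 0) := by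
      apply squeeze_zero_norm _ h3
      intro k
      have := ((op α p) ^ (n k) : C(UnitAddCircle, ℝ) →ₗ[ℝ] C(UnitAddCircle, ℝ)).map_sub φ
        (op α p (op α p φ))
      simp only [Function.comp_apply]
      rw [this]
      exact ContinuousMap.norm_coe_le_norm (((op α p) ^ (n k)) φ
        - ((op α p) ^ (n k)) (op α p (op α p φ))) (x k)
    exact h4.mono_left (Nat.hyperfilter_le_atTop)
  have h3 := tendsto_nhds_unique h1 h2
  linarith

/-- existence, uniqueness and uniform convergence -/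
theorem GoodV.main (h : GoodV α p δ) : ∃ ν : Measure UnitAddCircle, IsProbabilityMeasure ν ∧
    (∀ φ, ∫ y, op α p φ y ∂ν = ∫ y, φ y ∂ν) ∧
    (∀ ν' : Measure UnitAddCircle, IsProbabilityMeasure ν' →
      (∀ φ, ∫ y, op α p φ y ∂ν' = ∫ y, φ y ∂ν') → ν' = ν) ∧
    ∀ φ : C(UnitAddCircle, ℝ), Tendsto (fun n : ℕ => ‖((op α p) ^ n) φ
      - ContinuousMap.const _ (∫ y, φ y ∂ν)‖) atTop (𝓝 0) := by
  obtain ⟨μ, hμp, hμ2, hμ⟩ := h.limit tendsto_id (fun _ => 0)
  obtain ⟨μ', hμp', hμ2', hμ'⟩ := h.limit (tendsto_add_atTop_nat 1) (fun _ => 0)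
  have hμμ : μ' = μ := h.unique2 hμ2' hμ2
  rw [hμμ] at hμ'
  have hst : ∀ φ, ∫ y, op α p φ y ∂μ = ∫ y, φ y ∂μ := by
    intro φ
    refine tendsto_nhds_unique (hμ (op α p φ)) ?_
    refine (hμ' φ).congr fun k => ?_
    rw [id, pow_succ, Module.End.mul_apply]
  refine ⟨μ, hμp, hst, ?_, ?_⟩
  · intro ν' hν'p hν'
    exact h.unique2 (fun φ => by rw [hν', hν']) hμ2
  · intro φ
    by_contra hc
    rw [Metric.tendsto_atTop] at hc
    push Not at hc
    obtain ⟨ε, hε, hfreq⟩ := hc
    choose n hn1 hn2 using hfreq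
    have hx : ∀ k, ∃ x, ε / 2 ≤ |((op α p) ^ (n k)) φ x - ∫ y, φ y ∂μ| := by
      intro k
      by_contra hc
      push Not at hc
      have h1 := hn2 k
      rw [Real.dist_eq, sub_zero, abs_of_nonneg (norm_nonneg _)] at h1
      have h2 : ‖((op α p) ^ (n k)) φ - ContinuousMap.const _ (∫ y, φ y ∂μ)‖ ≤ ε / 2 := by
        rw [ContinuousMap.norm_le _ (by positivity)]
        intro x
        rw [ContinuousMap.sub_apply, ContinuousMap.const_apply, Real.norm_eq_abs]
        exact (hc x).le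
      linarith
    choose x hx using hx
    obtain ⟨μ₁, h1p, h12, h1⟩ := h.limit (n := n) (tendsto_atTop_mono hn1 tendsto_id) x
    have h2 : μ₁ = μ := h.unique2 h12 hμ2
    rw [h2] at h1
    have h3 := ((h1 φ).sub_const (∫ y, φ y ∂μ)).abs
    rw [sub_self, abs_zero] at h3
    have h4 := ge_of_tendsto h3 (Eventually.of_forall hx)
    linarith

end Pool.Agent.KS6_11.QWalk
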